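import Pool.Agent.Results.MP_abe753_lc.PlusNotLocal

/-!
# Addition-invariant first-order logic: polylogarithmic locality radii are necessary

Colours: 0 the set `S`, 1 the index set `A`, 2 the value set `B`, 3 the pairs `D`, 4 the
sequences `W` (all functions `A → B`), 5 red, 6 start, 7, 8, 9 the direction colours of `S`,
10 the order of `A` (a colour of pairs), 11 the accumulation table (a colour of sequences),
12, 13, 14, 15 the first four positions.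
-/

set_option autoImplicit false

namespace Pool.Agent.Y553.PL

open Pool.Agent.Results.MP_abe753_lc.PlusNotLocal

/-- Graphs with sixteen colours. -/
abbrev CG (V : Type) := ColouredGraph 16 V

section Semantics

variable {V : Type}

/-- The value of the sequence `w` at the index `a` is `b`. -/
def Arr (G : CG V) (w a b : V) : Prop :=
  ∃ d, d ∈ G.colour 3 ∧ G.graph.Adj d a ∧ G.graph.Adj d b ∧ G.graph.Adj d w

/-- The order of the indices. -/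
def Lt (G : CG V) (a a' : V) : Prop :=
  ∃ b, b ∈ G.colour 2 ∧ G.graph.Adj a' b ∧
    ∃ d, d ∈ G.colour 3 ∧ d ∈ G.colour 10 ∧ G.graph.Adj d a ∧ G.graph.Adj d b

/-- `a` is the first index. -/
def First (G : CG V) (a : V) : Prop := a ∈ G.colour 1 ∧ ∀ a', a' ∈ G.colour 1 → ¬ Lt G a' a

/-- `a` is the last index. -/
def Last (G : CG V) (a : V) : Prop := a ∈ G.colour 1 ∧ ∀ a', a' ∈ G.colour 1 → ¬ Lt G a a'

/-- `a` and `a'` are consecutive indices. -/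
def Cons (G : CG V) (a a' : V) : Prop :=
  a ∈ G.colour 1 ∧ a' ∈ G.colour 1 ∧ Lt G a a' ∧
    ∀ b, b ∈ G.colour 1 → ¬ (Lt G a b ∧ Lt G b a')

/-- The accumulation table. -/
def Acc (G : CG V) (z q x y : V) : Prop :=
  ∃ w, w ∈ G.colour 4 ∧ w ∈ G.colour 11 ∧
    (∃ a, a ∈ G.colour 1 ∧ a ∈ G.colour 12 ∧ Arr G w a z) ∧
    (∃ a, a ∈ G.colour 1 ∧ a ∈ G.colour 13 ∧ Arr G w a q) ∧
    (∃ a, a ∈ G.colour 1 ∧ a ∈ G.colour 14 ∧ Arr G w a x) ∧
    (∃ a, a ∈ G.colour 1 ∧ a ∈ G.colour 15 ∧ Arr G w a y)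

/-- The axioms of the coding part. -/
structure Ax (G : CG V) : Prop where
  cover : ∀ x, x ∈ G.colour 0 ∨ x ∈ G.colour 1 ∨ x ∈ G.colour 2 ∨ x ∈ G.colour 3 ∨ x ∈ G.colour 4
  disj : ∀ x, x ∈ G.colour 0 → ¬ x ∈ G.colour 4
  fst : ∀ d, d ∈ G.colour 3 → ∃ u, u ∈ G.colour 1 ∧ G.graph.Adj d u
  snd : ∀ d, d ∈ G.colour 3 → ∃ v, v ∈ G.colour 2 ∧ G.graph.Adj d v
  pairu : ∀ d, d ∈ G.colour 3 → ∀ e, e ∈ G.colour 3 → ∀ u, u ∈ G.colour 1 → ∀ v, v ∈ G.colour 2 →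
    G.graph.Adj d u → G.graph.Adj d v → G.graph.Adj e u → G.graph.Adj e v → d = e
  lt_irr : ∀ a, a ∈ G.colour 1 → ¬ Lt G a a
  lt_trans : ∀ a, a ∈ G.colour 1 → ∀ b, b ∈ G.colour 1 → ∀ c, c ∈ G.colour 1 →
    Lt G a b → Lt G b c → Lt G a c
  lt_tot : ∀ a, a ∈ G.colour 1 → ∀ b, b ∈ G.colour 1 → a = b ∨ Lt G a b ∨ Lt G b a
  mat : ∀ a, a ∈ G.colour 1 → ∃ b, b ∈ G.colour 2 ∧ G.graph.Adj a b
  matu : ∀ a, a ∈ G.colour 1 → ∀ a', a' ∈ G.colour 1 → ∀ b, b ∈ G.colour 2 →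
    G.graph.Adj a b → G.graph.Adj a' b → a = a'
  val : ∀ w, w ∈ G.colour 4 → ∀ a, a ∈ G.colour 1 → ∃ b, b ∈ G.colour 2 ∧ Arr G w a b
  valu : ∀ w, w ∈ G.colour 4 → ∀ a, a ∈ G.colour 1 → ∀ b, b ∈ G.colour 2 → ∀ b', b' ∈ G.colour 2 →
    Arr G w a b → Arr G w a b' → b = b'
  wne : ∃ w, w ∈ G.colour 4
  upd : ∀ w, w ∈ G.colour 4 → ∀ a, a ∈ G.colour 1 → ∀ b, b ∈ G.colour 2 → ∃ w', w' ∈ G.colour 4 ∧
    Arr G w' a b ∧ ∀ a', a' ∈ G.colour 1 → a' ≠ a → ∀ b', b' ∈ G.colour 2 →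
      (Arr G w' a' b' ↔ Arr G w a' b')
  ext : ∀ w, w ∈ G.colour 4 → ∀ w', w' ∈ G.colour 4 →
    (∀ a, a ∈ G.colour 1 → ∀ b, b ∈ G.colour 2 → (Arr G w a b ↔ Arr G w' a b)) → w = w'
  acct : ∀ z, z ∈ G.colour 2 → ∀ q, q ∈ G.colour 2 → ∀ x, x ∈ G.colour 2 →
    ∃ y, y ∈ G.colour 2 ∧ Acc G z q x y
  accu : ∀ z, z ∈ G.colour 2 → ∀ q, q ∈ G.colour 2 → ∀ x, x ∈ G.colour 2 →
    ∀ y, y ∈ G.colour 2 → ∀ y', y' ∈ G.colour 2 → Acc G z q x y → Acc G z q x y' → y = y'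
  acci : ∀ z, z ∈ G.colour 2 → ∀ z', z' ∈ G.colour 2 → ∀ q, q ∈ G.colour 2 →
    ∀ x, x ∈ G.colour 2 → ∀ y, y ∈ G.colour 2 → Acc G z q x y → Acc G z' q x y → z = z'
  accq : ∀ z, z ∈ G.colour 2 → ∀ z', z' ∈ G.colour 2 → ∀ q, q ∈ G.colour 2 →
    ∀ q', q' ∈ G.colour 2 → ∀ x, x ∈ G.colour 2 → ∀ x', x' ∈ G.colour 2 →
    ∀ y, y ∈ G.colour 2 → ∀ y', y' ∈ G.colour 2 →
    Acc G z q x y → Acc G z' q x' y → Acc G z q' x y' → Acc G z' q' x' y' → x = x' ∨ q = q'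

/-- There are at least `N` indices. -/
def Big (N : ℕ) (G : CG V) : Prop :=
  ∃ i : Fin N → V, (∀ j, i j ∈ G.colour 1) ∧ ∀ j j', i j = i j' → j = j'

/-- The directed edges of `S`. -/
def Step (G : CG V) (u v : V) : Prop :=
  G.graph.Adj u v ∧ ((u ∈ G.colour 7 ∧ v ∈ G.colour 8) ∨ (u ∈ G.colour 8 ∧ v ∈ G.colour 9) ∨
    (u ∈ G.colour 9 ∧ v ∈ G.colour 7))

/-- The axioms of the part `S`. -/
structure Sax (G : CG V) : Prop where
  out : ∀ u, u ∈ G.colour 0 → ∀ v, v ∈ G.colour 0 → ∀ v', v' ∈ G.colour 0 →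
    Step G u v → Step G u v' → v = v'
  two : ∀ e, e ∈ G.colour 0 → ∀ e', e' ∈ G.colour 0 → ∀ e'', e'' ∈ G.colour 0 →
    e ∈ G.colour 6 → e' ∈ G.colour 6 → e'' ∈ G.colour 6 → e = e' ∨ e = e'' ∨ e' = e''

/-- `z` is the value of `Z` before `a`, and `z0` if `a` is the first index. -/
def Prev (G : CG V) (z0 Z a z : V) : Prop :=
  (First G a ∧ z = z0) ∨ ∃ a', Cons G a' a ∧ Arr G Z a' z

/-- `Z` is the run of the hash function. -/
def Run (G : CG V) (z0 Q w Z : V) : Prop :=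
  ∀ a, a ∈ G.colour 1 → ∀ z, z ∈ G.colour 2 → ∀ q, q ∈ G.colour 2 → ∀ x, x ∈ G.colour 2 →
    ∀ y, y ∈ G.colour 2 → Prev G z0 Z a z → Arr G Q a q → Arr G w a x → Arr G Z a y →
    Acc G z q x y

/-- The hash value of `w` with respect to `Q` is `c`. -/
def H (G : CG V) (z0 Q w c : V) : Prop :=
  ∃ Z, Z ∈ G.colour 4 ∧ Run G z0 Q w Z ∧ ∃ a, Last G a ∧ Arr G Z a c

variable {J : ℕ}

/-- The tuple `c` is the code of the vertex `s` of `S`. -/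
def Link (G : CG V) (f : V → ℕ) (x y z0 : V) (Q : Fin J → V) (s : V) (c : Fin J → V) : Prop :=
  ∃ t, t ∈ G.colour 4 ∧ (f s + f x = f t ∨ f t + f y = f s) ∧ ∀ i, H G z0 (Q i) t (c i)

/-- The `a`-th element of the sequence of vertices coded by `X` is `u`. -/
def At (G : CG V) (f : V → ℕ) (x y z0 : V) (Q : Fin J → V) (X : Fin J → V) (a u : V) : Prop :=
  ∃ c : Fin J → V, (∀ i, c i ∈ G.colour 2) ∧ (∀ i, Arr G (X i) a (c i)) ∧ Link G f x y z0 Q u c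

/-- The parameters are good: every vertex of `S` has a code, different ones have no common code. -/
def Good (G : CG V) (f : V → ℕ) (x y z0 : V) (Q : Fin J → V) : Prop :=
  (∀ s, s ∈ G.colour 0 → ∃ c : Fin J → V, (∀ i, c i ∈ G.colour 2) ∧ Link G f x y z0 Q s c) ∧
  ∀ c : Fin J → V, (∀ i, c i ∈ G.colour 2) → ∀ s, s ∈ G.colour 0 → ∀ s', s' ∈ G.colour 0 →
    Link G f x y z0 Q s c → Link G f x y z0 Q s' c → s = s'

/-- Reachability in at most `(|A| - 1) ^ j` steps, as it is expressed by the formula. -/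
def RR (G : CG V) (f : V → ℕ) (x y z0 : V) (Q : Fin J → V) : ℕ → V → V → Prop
  | 0, u, v => u = v ∨ Step G u v
  | j + 1, u, v => ∃ X : Fin J → V, (∀ i, X i ∈ G.colour 4) ∧
      (∃ a, First G a ∧ At G f x y z0 Q X a u) ∧
      (∃ a, Last G a ∧ At G f x y z0 Q X a v) ∧
      (∀ a, a ∈ G.colour 1 → ∃ u', u' ∈ G.colour 0 ∧ At G f x y z0 Q X a u') ∧
      ∀ a a', Cons G a a' → ∀ u', u' ∈ G.colour 0 → ∀ v', v' ∈ G.colour 0 →
        At G f x y z0 Q X a u' → At G f x y z0 Q X a' v' → RR G f x y z0 Q j u' v'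

/-- What the formula says. -/
def Main (m J N : ℕ) (G : CG V) (f : V → ℕ) (a : V) : Prop :=
  Ax G ∧ Big N G ∧ Sax G ∧ a ∈ G.colour 0 ∧
  ∃ x y z0, z0 ∈ G.colour 2 ∧ ∃ Q : Fin J → V, (∀ i, Q i ∈ G.colour 4) ∧
    Good G f x y z0 Q ∧
    (∀ s, s ∈ G.colour 0 → ∃ e, e ∈ G.colour 0 ∧ e ∈ G.colour 6 ∧ RR G f x y z0 Q m e s) ∧
    ∃ s, s ∈ G.colour 0 ∧ s ∈ G.colour 5 ∧ RR G f x y z0 Q m a s

/-- Reachability inside `S` in at most `n` steps. -/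
def Pow (G : CG V) : ℕ → V → V → Prop
  | 0, u, v => u = v
  | n + 1, u, v => ∃ w, w ∈ G.colour 0 ∧ Pow G n u w ∧ (w = v ∨ Step G w v)

/-- The numbering-free meaning of the formula. -/
def Sem (m N : ℕ) (G : CG V) (a : V) : Prop :=
  Ax G ∧ Big N G ∧ Sax G ∧ a ∈ G.colour 0 ∧
  (∀ s, s ∈ G.colour 0 → ∃ e, e ∈ G.colour 0 ∧ e ∈ G.colour 6 ∧
    Pow G (((G.colour 1).ncard - 1) ^ m) e s) ∧
  ∃ s, s ∈ G.colour 0 ∧ s ∈ G.colour 5 ∧ Pow G (((G.colour 1).ncard - 1) ^ m) a s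

/-- A coordinatisation of the coding part. -/
structure Pres (G : CG V) (k l : ℕ) where
  α : Fin k → V
  β : Fin l → V
  w : (Fin k → Fin l) → V
  α_bij : Set.BijOn α Set.univ (G.colour 1)
  β_bij : Set.BijOn β Set.univ (G.colour 2)
  w_bij : Set.BijOn w Set.univ (G.colour 4)
  lt_iff : ∀ i j, Lt G (α i) (α j) ↔ i < j
  arr_iff : ∀ g i j, Arr G (w g) (α i) (β j) ↔ g i = j
  acc : Fin l → Fin l → Fin l → Fin l
  acc_iff : ∀ z q x y, Acc G (β z) (β q) (β x) (β y) ↔ acc z q x = y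
  acc_inj : ∀ z z' q x, acc z q x = acc z' q x → z = z'
  acc_q : ∀ z z' q q' x x', acc z q x = acc z' q x' → acc z q' x = acc z' q' x' →
    x = x' ∨ q = q'

end Semantics

/-- The run of the hash function. -/
def run {k l : ℕ} (acc : Fin l → Fin l → Fin l → Fin l) (z0 : Fin l) (q w : Fin k → Fin l) :
    ℕ → Fin l
  | 0 => z0
  | n + 1 => if h : n < k then acc (run acc z0 q w n) (q ⟨n, h⟩) (w ⟨n, h⟩)
      else run acc z0 q w n

/-- The hash value. -/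
def hash {k l : ℕ} (acc : Fin l → Fin l → Fin l → Fin l) (z0 : Fin l) (q w : Fin k → Fin l) :
    Fin l := run acc z0 q w k

/-! ### The example -/

/-- Vertices of the example: two paths with `L` vertices each, and the coding part. -/
inductive Vt (q L : ℕ) : Type
  | s (p : Bool × Fin L)
  | a (i : Fin q)
  | b (j : ZMod q)
  | d (i : Fin q) (j : ZMod q)
  | w (g : Fin q → ZMod q)

/-- Directed version of the edges. -/
def Er {q L : ℕ} : Vt q L → Vt q L → Prop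
  | .s p, .s p' => p.1 = p'.1 ∧ p.2.val + 1 = p'.2.val
  | .a i, .b j => ((i.val : ℕ) : ZMod q) = j
  | .d i _, .a i' => i = i'
  | .d _ j, .b j' => j = j'
  | .d i j, .w g => g i = j
  | _, _ => False

/-- The coloured graph of the example. -/
def ex (q L : ℕ) : CG (Vt q L) where
  graph :=
    { Adj := fun x y => Er x y ∨ Er y x
      symm := ⟨fun _ _ h => h.symm⟩
      loopless := ⟨fun x h => by
        cases x <;> simp [Er] at h⟩ }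
  colour := ![{x | ∃ p, x = .s p}, {x | ∃ i, x = .a i}, {x | ∃ j, x = .b j},
    {x | ∃ i j, x = .d i j}, {x | ∃ g, x = .w g},
    {x | ∃ i : Fin L, x = .s (true, i) ∧ i.val + 1 = L},
    {x | ∃ (t : Bool) (i : Fin L), x = .s (t, i) ∧ i.val = 0},
    {x | ∃ (t : Bool) (i : Fin L), x = .s (t, i) ∧ i.val % 3 = 0},
    {x | ∃ (t : Bool) (i : Fin L), x = .s (t, i) ∧ i.val % 3 = 1},
    {x | ∃ (t : Bool) (i : Fin L), x = .s (t, i) ∧ i.val % 3 = 2},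
    {x | ∃ (i : Fin q) (j : ZMod q), x = .d i j ∧ i.val < j.val},
    {x | ∃ g : Fin q → ZMod q, x = .w g ∧ ∃ i0 i1 i2 i3 : Fin q, i0.val = 0 ∧ i1.val = 1 ∧
      i2.val = 2 ∧ i3.val = 3 ∧ g i3 = g i0 + g i1 * g i2},
    {x | ∃ i : Fin q, x = .a i ∧ i.val = 0}, {x | ∃ i : Fin q, x = .a i ∧ i.val = 1},
    {x | ∃ i : Fin q, x = .a i ∧ i.val = 2}, {x | ∃ i : Fin q, x = .a i ∧ i.val = 3}]

end Pool.Agent.Y553.PL
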