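import Pool.Agent.Y553.PL.Stm

set_option autoImplicit false

namespace Pool.Agent.Y553.PL

open Pool.Agent.Results.MP_abe753_lc.PlusNotLocal FirstOrder

theorem Pres.ncard_one {V : Type} {G : CG V} {k l : ℕ} (P : Pres G k l) :
    (G.colour 1).ncard = k := by
  have h := P.α_bij
  rw [← h.image_eq, Set.ncard_image_of_injOn h.injOn, Set.ncard_univ, Nat.card_fin]

theorem Big.le {V : Type} [Finite V] {G : CG V} {N : ℕ} (h : Big N G) :
    N ≤ (G.colour 1).ncard := by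
  obtain ⟨i, hi, hinj⟩ := h
  have h1 : (Set.range i).ncard = N := by
    rw [← Set.image_univ, Set.ncard_image_of_injective _ (fun a b => hinj a b), Set.ncard_univ,
      Nat.card_fin]
  rw [← h1]
  exact Set.ncard_le_ncard (by rintro _ ⟨j, rfl⟩; exact hi j) (Set.toFinite _)

theorem main_iff (hPRES : St_PRES) (hREC : St_REC) (hCARDS : St_CARDS) (hGOODEX : St_GOODEX)
    (m : ℕ) (V : Type) [Finite V] (G : CG V) (f : V → ℕ) (hf : IsNumbering f) (a : V) :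
    Main m (2 * m + 4) (2 * m + 8) G f a ↔ Sem m (2 * m + 8) G a := by
  constructor
  · rintro ⟨hAx, hBig, hSax, ha, x, y, z0, hz0, Q, hQ, hGood, hall, s, hs, hs5, hr⟩
    obtain ⟨k, l, hkl, ⟨P⟩⟩ := hPRES V G hAx
    have hk := P.ncard_one
    have hN := hBig.le
    have hk0 : 0 < k := by omega
    refine ⟨hAx, hBig, hSax, ha, ?_, s, hs, hs5, ?_⟩
    · intro s hs
      obtain ⟨e, he, he6, hr⟩ := hall s hs
      refine ⟨e, he, he6, ?_⟩
      rw [hk]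
      exact (hREC V G f _ x y z0 Q k l P hk0 hGood m e s he hs).1 hr
    · rw [hk]
      exact (hREC V G f _ x y z0 Q k l P hk0 hGood m a s ha hs).1 hr
  · rintro ⟨hAx, hBig, hSax, ha, hall, s, hs, hs5, hr⟩
    obtain ⟨k, l, hkl, ⟨P⟩⟩ := hPRES V G hAx
    have hk := P.ncard_one
    have hN := hBig.le
    have hk0 : 0 < k := by omega
    rw [hk] at hall hr
    have hS := hCARDS V G hSax _ hall
    have h1 : (k - 1) ^ m ≤ k ^ m := Nat.pow_le_pow_left (Nat.sub_le _ _) _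
    have h2 : 1 ≤ k ^ m := Nat.one_le_pow _ _ hk0
    obtain ⟨x, y, z0, hz0, Q, hQ, hGood⟩ := hGOODEX V G f hf hAx m k l P hkl (by omega)
      (hS.trans (by omega)) ⟨a, ha⟩
    refine ⟨hAx, hBig, hSax, ha, x, y, z0, hz0, Q, hQ, hGood, ?_, s, hs, hs5, ?_⟩
    · intro s hs
      obtain ⟨e, he, he6, hr⟩ := hall s hs
      exact ⟨e, he, he6, (hREC V G f _ x y z0 Q k l P hk0 hGood m e s he hs).2 hr⟩
    · exact (hREC V G f _ x y z0 Q k l P hk0 hGood m a s ha hs).2 hr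

theorem main (hDEF : St_DEF) (hPRES : St_PRES) (hREC : St_REC) (hCARDS : St_CARDS)
    (hGOODEX : St_GOODEX) (hEXAX : St_EXAX) (hEXSEM : St_EXSEM) (hEXISO : St_EXISO)
    (hEXCARD : St_EXCARD) (hARITH : St_ARITH) (c : ℕ) (hc : 1 ≤ c) :
    ∃ φ : (vocab 16).Formula (Fin 1), PlusInvariant φ ∧ ¬ GaifmanLocal φ ∧
      ∀ N : ℕ, ∃ (V : Type) (_ : Finite V) (G : ColouredGraph 16 V) (a b : Fin 1 → V),
        N ≤ Nat.card V ∧ (∀ r ≤ (Nat.log 2 (Nat.card V)) ^ c, NbhdIso G r a b) ∧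
        a ∈ query φ G ∧ b ∉ query φ G := by
  obtain ⟨φ, hφ⟩ := hDEF (3 * c + 1) (2 * (3 * c + 1) + 4) (2 * (3 * c + 1) + 8)
  have key : ∀ (V : Type) [Finite V] (G : CG V) (f : V → ℕ), IsNumbering f →
      ∀ a : Fin 1 → V, Sat G f φ a ↔ Sem (3 * c + 1) (2 * (3 * c + 1) + 8) G (a 0) :=
    fun V _ G f hf a => (hφ V G f a).trans (main_iff hPRES hREC hCARDS hGOODEX _ V G f hf _)
  have hinv : PlusInvariant φ := by
    intro V _ G f₁ f₂ h₁ h₂ a
    rw [key V G f₁ h₁, key V G f₂ h₂]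
  have hmain : ∀ N : ℕ, ∃ (V : Type) (_ : Finite V) (G : ColouredGraph 16 V) (a b : Fin 1 → V),
        N ≤ Nat.card V ∧ (∀ r ≤ (Nat.log 2 (Nat.card V)) ^ c, NbhdIso G r a b) ∧
        a ∈ query φ G ∧ b ∉ query φ G := by
    intro N
    obtain ⟨q, hq, hNq, hmq, hlog⟩ := hARITH c N
    obtain ⟨L, hL⟩ : ∃ L, L = (q - 1) ^ (3 * c + 1) + 1 := ⟨_, rfl⟩
    have hq0 : q ≠ 0 := hq.ne_zero
    obtain ⟨hSax, hstart, hred, hnot, hfin, hone, hbig⟩ := hEXSEM q L (by omega)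
    have hFin : Finite (Vt q L) := hfin hq0
    have hAx := hEXAX q L hq (by omega)
    have hcard := hEXCARD q L hq0
    have hL0 : 0 < L := by omega
    have hL1 : L - 1 = (((ex q L).colour 1).ncard - 1) ^ (3 * c + 1) := by
      rw [hone, hL]
      simp
    refine ⟨Vt q L, hFin, ex q L, fun _ => .s (true, ⟨0, hL0⟩), fun _ => .s (false, ⟨0, hL0⟩),
      ?_, ?_, ?_, ?_⟩
    · rw [hcard]
      omega
    · intro r hr
      refine hEXISO q L r ?_ ⟨0, hL0⟩ rfl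
      rw [hcard, hL] at hr
      rw [hL]
      omega
    · obtain ⟨f, hf⟩ := exists_numbering (Vt q L)
      refine ⟨f, hf, (key _ _ f hf _).2 ⟨hAx, hbig _ hmq, hSax, ⟨_, rfl⟩, ?_, ?_⟩⟩
      · rw [← hL1]
        exact hstart
      · rw [← hL1]
        exact hred ⟨0, hL0⟩ rfl
    · rintro ⟨f, hf, hsat⟩
      obtain ⟨-, -, -, -, -, s, hs, hs5, hr⟩ := (key _ _ f hf _).1 hsat
      exact hnot _ _ _ hr hs5
  refine ⟨φ, hinv, ?_, hmain⟩
  rintro ⟨r, hr⟩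
  obtain ⟨V, hV, G, a, b, hN, hiso, ha, hb⟩ := hmain (2 ^ r)
  refine hb ((hr V G a b (hiso r ?_)).1 ha)
  have h1 : r ≤ Nat.log 2 (Nat.card V) := Nat.le_log_of_pow_le (by norm_num) hN
  exact h1.trans (Nat.le_self_pow (by omega) _)

end Pool.Agent.Y553.PL
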