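import Pool.Agent.Y553.PL.Defs

set_option autoImplicit false

namespace Pool.Agent.Y553.PL

open Pool.Agent.Results.MP_abe753_lc.PlusNotLocal FirstOrder

/-- DEF -/
def St_DEF : Prop := ∀ m J N : ℕ, ∃ φ : (vocab 16).Formula (Fin 1), ∀ (V : Type) (G : CG V)
  (f : V → ℕ) (a : Fin 1 → V), Sat G f φ a ↔ Main m J N G f (a 0)

/-- HASH -/
def St_HASH : Prop := ∀ (k l J : ℕ) (acc : Fin l → Fin l → Fin l → Fin l),
  (∀ z z' q x, acc z q x = acc z' q x → z = z') →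
  (∀ z z' q q' x x', acc z q x = acc z' q x' → acc z q' x = acc z' q' x' → x = x' ∨ q = q') →
  ∀ (z0 : Fin l) (T : Finset (Fin k → Fin l)), T.card * T.card ≤ l ^ J →
  ∃ Q : Fin J → (Fin k → Fin l), ∀ w ∈ T, ∀ w' ∈ T,
    (∀ i, hash acc z0 (Q i) w = hash acc z0 (Q i) w') → w = w'

/-- PRES -/
def St_PRES : Prop := ∀ (V : Type) [Finite V] (G : CG V), Ax G →
  ∃ k l : ℕ, k ≤ l ∧ Nonempty (Pres G k l)

/-- HSEM -/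
def St_HSEM : Prop := ∀ (V : Type) (G : CG V) (k l : ℕ) (P : Pres G k l), 0 < k →
  ∀ (z0 : Fin l) (q w : Fin k → Fin l) (c : Fin l),
    H G (P.β z0) (P.w q) (P.w w) (P.β c) ↔ hash P.acc z0 q w = c

/-- REC -/
def St_REC : Prop := ∀ (V : Type) (G : CG V) (f : V → ℕ) (J : ℕ) (x y z0 : V)
  (Q : Fin J → V) (k l : ℕ) (_ : Pres G k l), 0 < k → Good G f x y z0 Q →
  ∀ (j : ℕ) (u v : V), u ∈ G.colour 0 → v ∈ G.colour 0 →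
    (RR G f x y z0 Q j u v ↔ Pow G ((k - 1) ^ j) u v)

/-- CARDS -/
def St_CARDS : Prop := ∀ (V : Type) [Finite V] (G : CG V), Sax G → ∀ K : ℕ,
  (∀ s, s ∈ G.colour 0 → ∃ e, e ∈ G.colour 0 ∧ e ∈ G.colour 6 ∧ Pow G K e s) →
  (G.colour 0).ncard ≤ 2 * (K + 1)

/-- CARDW -/
def St_CARDW : Prop := ∀ (V : Type) [Finite V] (G : CG V) (m k l : ℕ) (_ : Pres G k l), Ax G →
  k ≤ l → 2 * m + 8 ≤ k → (G.colour 0).ncard ≤ 4 * k ^ m →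
  (G.colour 0).ncard * (G.colour 4)ᶜ.ncard < Nat.card V

/-- GOODEX -/
def St_GOODEX : Prop := ∀ (V : Type) [Finite V] (G : CG V) (f : V → ℕ), IsNumbering f → Ax G →
  ∀ (m k l : ℕ) (_ : Pres G k l), k ≤ l → 2 * m + 8 ≤ k → (G.colour 0).ncard ≤ 4 * k ^ m →
  (G.colour 0).Nonempty → ∃ x y z0, z0 ∈ G.colour 2 ∧ ∃ Q : Fin (2 * m + 4) → V,
    (∀ i, Q i ∈ G.colour 4) ∧ Good G f x y z0 Q

/-- EXAX -/
def St_EXAX : Prop := ∀ (q L : ℕ), q.Prime → 4 ≤ q → Ax (ex q L)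

/-- EXSEM -/
def St_EXSEM : Prop := ∀ (q L : ℕ), 1 ≤ L → Sax (ex q L) ∧
  (∀ s, s ∈ (ex q L).colour 0 → ∃ e, e ∈ (ex q L).colour 0 ∧ e ∈ (ex q L).colour 6 ∧
    Pow (ex q L) (L - 1) e s) ∧
  (∀ i : Fin L, i.val = 0 → ∃ s, s ∈ (ex q L).colour 0 ∧ s ∈ (ex q L).colour 5 ∧
    Pow (ex q L) (L - 1) (.s (true, i)) s) ∧
  (∀ (i : Fin L) (n : ℕ) (s : Vt q L), Pow (ex q L) n (.s (false, i)) s →
    ¬ s ∈ (ex q L).colour 5) ∧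
  (q ≠ 0 → Finite (Vt q L)) ∧ ((ex q L).colour 1).ncard = q ∧ ∀ N ≤ q, Big N (ex q L)

/-- EXISO -/
def St_EXISO : Prop := ∀ (q L r : ℕ), r + 2 ≤ L → ∀ i : Fin L, i.val = 0 →
  NbhdIso (ex q L) r (fun _ : Fin 1 => (.s (true, i) : Vt q L)) (fun _ => .s (false, i))

/-- EXCARD -/
def St_EXCARD : Prop := ∀ (q L : ℕ), q ≠ 0 → Nat.card (Vt q L) = 2 * L + 2 * q + q * q + q ^ q

/-- ARITH -/
def St_ARITH : Prop := ∀ c N : ℕ, ∃ q : ℕ, q.Prime ∧ N ≤ q ∧ 2 * (3 * c + 1) + 8 ≤ q ∧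
  (Nat.log 2 (2 * ((q - 1) ^ (3 * c + 1) + 1) + 2 * q + q * q + q ^ q)) ^ c + 2 ≤
    (q - 1) ^ (3 * c + 1) + 1

end Pool.Agent.Y553.PL
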